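import Pool.Agent.W252.BWFinal
import Pool.Agent.W252.GelFinal
import Pool.Agent.H340R2.LW

/-!
# Quotients of numbers with algebraic exponentials

Library for `Pool.Agent.Results.MP_58ae59_nt.AlmostAllTowers`: the counts of the `s` in a finite linearly independent
set `S` (in the algebraic closure of `ℚ(β)`) with `e ^ s` algebraic, or algebraic over `ℚ(β)`.
-/

set_option autoImplicit false

namespace Pool.Agent.J4H70.TW

open Finset Polynomial

open scoped Pointwise IntermediateField

/-- algebraic over `ℚ(e^z)` -/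
theorem alg_pow (z : ℂ) (r : ℚ) : IsAlgebraic ℚ⟮Complex.exp z⟯ (Complex.exp (r * z)) := by
  have h1 : (Complex.exp (r * z)) ^ r.den = (Complex.exp z) ^ r.num := by
    rw [← Complex.exp_nat_mul, ← Complex.exp_int_mul]
    congr 1
    have h2 : (r.den : ℂ) * (r : ℂ) = r.num := by
      have h3 : (r.den : ℚ) * r = r.num := Rat.den_mul_eq_num r
      exact_mod_cast congrArg (fun x : ℚ => (x : ℂ)) h3
    rw [← mul_assoc, h2]
  apply IsAlgebraic.of_pow r.den_pos
  rw [h1]
  have hmem : (Complex.exp z) ^ r.num ∈ ℚ⟮Complex.exp z⟯ :=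
    zpow_mem (IntermediateField.mem_adjoin_simple_self ℚ _) _
  exact isAlgebraic_algebraMap (⟨_, hmem⟩ : ℚ⟮Complex.exp z⟯)

/-- distinct rational powers of a transcendental number are linearly independent -/
theorem li_pow {z : ℂ} (hz : Transcendental ℚ (Complex.exp z)) {n : ℕ} (r : Fin n → ℚ)
    (hr : Function.Injective r) : LinearIndependent ℚ (fun i => Complex.exp (r i * z)) := by
  classical
  -- a common denominator
  set N : ℕ := ∏ i, (r i).den with hN
  have hN0 : 0 < N := Finset.prod_pos (fun i _ => (r i).den_pos)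
  have hNC : (N : ℂ) ≠ 0 := by exact_mod_cast hN0.ne'
  have hint : ∀ i, ∃ m : ℤ, (m : ℚ) = N * r i := by
    intro i
    obtain ⟨k, hk⟩ : (r i).den ∣ N := Finset.dvd_prod_of_mem _ (mem_univ i)
    refine ⟨k * (r i).num, ?_⟩
    push_cast
    rw [hk]
    push_cast
    rw [← Rat.den_mul_eq_num (r i)]
    ring
  choose m hm using hint
  set γ : ℂ := Complex.exp (z / N) with hγ
  have hγ0 : γ ≠ 0 := Complex.exp_ne_zero _
  have hγN : γ ^ N = Complex.exp z := by
    rw [hγ, ← Complex.exp_nat_mul]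
    congr 1
    field_simp
  have hγt : Transcendental ℚ γ := by
    intro h
    apply hz
    rw [← hγN]
    exact h.pow N
  have hexp : ∀ i, Complex.exp (r i * z) = γ ^ (m i) := by
    intro i
    rw [hγ, ← Complex.exp_int_mul]
    congr 1
    have h1 : ((m i : ℤ) : ℂ) = N * (r i : ℂ) := by
      exact_mod_cast congrArg (fun x : ℚ => (x : ℂ)) (hm i)
    rw [h1]
    field_simp
  have hminj : Function.Injective m := by
    intro i j hij
    apply hr
    have h1 : (N : ℚ) * r i = N * r j := by rw [← hm i, ← hm j, hij]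
    have hNQ : (N : ℚ) ≠ 0 := by exact_mod_cast hN0.ne'
    exact mul_left_cancel₀ hNQ h1
  -- shift
  set M : ℤ := ∑ i, |m i| with hM
  have hMm : ∀ i, 0 ≤ m i + M := by
    intro i
    have h1 : |m i| ≤ M := Finset.single_le_sum (f := fun i => |m i|) (fun _ _ => abs_nonneg _) (mem_univ i)
    have h2 := neg_abs_le (m i)
    linarith
  rw [Fintype.linearIndependent_iff]
  intro g hg i
  set P : ℚ[X] := ∑ j, C (g j) * X ^ (m j + M).toNat with hP
  have hP0 : aeval γ P = 0 := by
    rw [hP, map_sum]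
    have h1 : ∀ j, aeval γ (C (g j) * X ^ (m j + M).toNat) = (g j • Complex.exp (r j * z)) * γ ^ M := by
      intro j
      rw [map_mul, aeval_C, map_pow, aeval_X, hexp j, Algebra.smul_def]
      have h2 : γ ^ (m j + M).toNat = γ ^ (m j) * γ ^ M := by
        rw [← zpow_add₀ hγ0, ← zpow_natCast, Int.toNat_of_nonneg (hMm j)]
      rw [h2]
      ring
    rw [Finset.sum_congr rfl (fun j _ => h1 j), ← Finset.sum_mul, hg, zero_mul]
  have hPz : P = 0 := by
    by_contra hne
    exact hγt ⟨P, hne, hP0⟩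
  have hcoef : P.coeff (m i + M).toNat = g i := by
    rw [hP, finsetSum_coeff]
    simp only [coeff_C_mul, coeff_X_pow, mul_ite, mul_one, mul_zero]
    rw [Finset.sum_eq_single i]
    · simp
    · intro j _ hji
      rw [if_neg]
      intro h
      apply hji
      apply hminj
      have h1 := Int.toNat_of_nonneg (hMm i)
      have h2 := Int.toNat_of_nonneg (hMm j)
      omega
    · intro h
      exact absurd (mem_univ i) h
  rw [← hcoef, hPz, coeff_zero]

theorem li_of {S : Finset ℂ} (hS : LinearIndependent ℚ (fun s : S => (s : ℂ))) {n : ℕ}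
    (f : Fin n → ℂ) (hf : ∀ i, f i ∈ S) (hinj : Function.Injective f) : LinearIndependent ℚ f := by
  have h1 := hS.comp (fun i => (⟨f i, hf i⟩ : S)) (by
    intro i j hij
    apply hinj
    exact congrArg Subtype.val hij)
  exact h1

theorem ne_zero_of {S : Finset ℂ} (hS : LinearIndependent ℚ (fun s : S => (s : ℂ))) {s : ℂ}
    (hs : s ∈ S) : s ≠ 0 := hS.ne_zero (⟨s, hs⟩ : S)

theorem li_quot {S : Finset ℂ} (hS : LinearIndependent ℚ (fun s : S => (s : ℂ))) {s d : ℂ}
    (hs : s ∈ S) (hsd : s * d ∈ S) (hd : d ≠ 1) : LinearIndependent ℚ ![d, 1] := by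
  have hs0 := ne_zero_of hS hs
  have hne : s * d ≠ s := by
    intro h
    apply hd
    have : s * (d - 1) = 0 := by rw [mul_sub, h]; ring
    rcases mul_eq_zero.1 this with h1 | h1
    · exact absurd h1 hs0
    · exact sub_eq_zero.1 h1
  have h1 : LinearIndependent ℚ ![s * d, s] := li_of hS _ (by
    intro i
    fin_cases i
    · exact hsd
    · exact hs) (by
    intro i j hij
    fin_cases i <;> fin_cases j
    · rfl
    · exact absurd hij hne
    · exact absurd hij.symm hne
    · rfl)
  rw [LinearIndependent.pair_iff] at h1 ⊢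
  intro p q hpq
  apply h1 p q
  have : s * (p • d + q • (1 : ℂ)) = 0 := by rw [hpq, mul_zero]
  rw [← this, mul_add, mul_smul_comm, mul_smul_comm, mul_one]

/-- Brownawell and Waldschmidt -/
theorem no_two {β : ℂ} (hβ : Transcendental ℚ β) {S : Finset ℂ}
    (hS : LinearIndependent ℚ (fun s : S => (s : ℂ))) (hK : ∀ s ∈ S, IsAlgebraic ℚ⟮β⟯ s) {s s' d : ℂ}
    (hs : s ∈ S) (hs' : s' ∈ S) (hss : s ≠ s') (hd : d ≠ 1) (h1 : s * d ∈ S)
    (e1 : IsAlgebraic ℚ⟮β⟯ (Complex.exp s)) (e2 : IsAlgebraic ℚ⟮β⟯ (Complex.exp s'))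
    (e3 : IsAlgebraic ℚ (Complex.exp (s * d))) (e4 : IsAlgebraic ℚ (Complex.exp (s' * d))) :
    False := by
  have hs0 := ne_zero_of hS hs
  have hdK : IsAlgebraic ℚ⟮β⟯ d := by
    have h2 : d = (s * d) * s⁻¹ := by field_simp
    rw [h2]
    exact (hK _ h1).mul (hK _ hs).inv
  have hx : LinearIndependent ℚ ![s, s'] := li_of hS _ (by
    intro i
    fin_cases i
    · exact hs
    · exact hs') (by
    intro i j hij
    fin_cases i <;> fin_cases j
    · rfl
    · exact absurd hij hss
    · exact absurd hij.symm hss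
    · rfl)
  refine Pool.Agent.W252.bw hβ ![s, s'] ![d, 1] hx (li_quot hS hs h1 hd) ?_ ?_ ?_ ?_
  · intro i
    fin_cases i
    · exact hK _ hs
    · exact hK _ hs'
  · intro j
    fin_cases j
    · exact hdK
    · exact isAlgebraic_one
  · intro i
    fin_cases i
    · exact e3
    · exact e4
  · intro i
    fin_cases i
    · show IsAlgebraic ℚ⟮β⟯ (Complex.exp (s * 1))
      rw [mul_one]; exact e1
    · show IsAlgebraic ℚ⟮β⟯ (Complex.exp (s' * 1))
      rw [mul_one]; exact e2

/-- Gel'fond -/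
theorem no_three {β : ℂ} (hβ : Transcendental ℚ β) {S : Finset ℂ}
    (hS : LinearIndependent ℚ (fun s : S => (s : ℂ))) (hK : ∀ s ∈ S, IsAlgebraic ℚ⟮β⟯ s) {d : ℂ}
    (f : Fin 3 → ℂ) (hf : Function.Injective f) (hfS : ∀ i, f i ∈ S) (hd : d ≠ 1)
    (h1 : f 0 * d ∈ S)
    (e1 : ∀ i, IsAlgebraic ℚ⟮β⟯ (Complex.exp (f i)))
    (e2 : ∀ i, IsAlgebraic ℚ⟮β⟯ (Complex.exp (f i * d))) : False := by
  have hs0 := ne_zero_of hS (hfS 0)
  have hdK : IsAlgebraic ℚ⟮β⟯ d := by
    have h2 : d = (f 0 * d) * (f 0)⁻¹ := by field_simp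
    rw [h2]
    exact (hK _ h1).mul (hK _ (hfS 0)).inv
  refine Pool.Agent.W252.gelG32 β hβ f ![d, 1] (li_of hS f hfS hf) (li_quot hS (hfS 0) h1 hd)
    (fun i => hK _ (hfS i)) ?_ ?_
  · intro j
    fin_cases j
    · exact hdK
    · exact isAlgebraic_one
  · intro i j
    fin_cases j
    · exact e2 i
    · show IsAlgebraic ℚ⟮β⟯ (Complex.exp (f i * 1))
      rw [mul_one]; exact e1 i

open Classical in
/-- pairs with different quotients -/
theorem count_one (S A B : Finset ℂ) (h0S : ∀ s ∈ S, s ≠ 0) (hAB : A ⊆ B) (hBS : B ⊆ S)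
    (h : ∀ d : ℂ, d ≠ 1 → ∀ s ∈ B, ∀ s' ∈ B, s ≠ s' → s * d ∈ A → s' * d ∈ A → False) :
    A.card * (B.card - 1) ≤ (S / S).card - 1 := by
  by_cases hR : S.Nonempty
  · obtain ⟨x, hx⟩ := hR
    have h1' : (1 : ℂ) ∈ S / S := by
      rw [← div_self (h0S x hx)]
      exact Finset.div_mem_div hx hx
    rw [← card_erase_of_mem h1']
    have h1 : (A.sigma (fun r => B.erase r)).card = A.card * (B.card - 1) := by
      rw [card_sigma, Finset.sum_congr rfl (fun r hr => card_erase_of_mem (hAB hr)), sum_const,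
        smul_eq_mul]
    rw [← h1]
    refine card_le_card_of_injOn (fun p => p.1 / p.2) ?_ ?_
    · rintro ⟨r, s⟩ hp
      rw [mem_coe, mem_sigma, mem_erase] at hp
      obtain ⟨hr, hsr, hs⟩ := hp
      rw [mem_coe, mem_erase]
      refine ⟨?_, Finset.div_mem_div (hBS (hAB hr)) (hBS hs)⟩
      intro hh
      apply hsr
      have hh' : r / s = 1 := hh
      rw [div_eq_one_iff_eq (h0S s (hBS hs))] at hh'
      exact hh'.symm
    · rintro ⟨r, s⟩ hp ⟨r', s'⟩ hp' he
      rw [mem_coe, mem_sigma, mem_erase] at hp hp'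
      obtain ⟨hr, hsr, hs⟩ := hp
      obtain ⟨hr', hsr', hs'⟩ := hp'
      have he' : r / s = r' / s' := he
      simp only at hr hsr hs hr' hsr' hs'
      have hs0 := h0S s (hBS hs)
      have hs0' := h0S s' (hBS hs')
      have e1 : s * (r / s) = r := by field_simp
      have e2 : s' * (r / s) = r' := by rw [he']; field_simp
      by_cases hss : s = s'
      · subst hss
        have : r = r' := by rw [← e1, e2]
        subst this
        rfl
      · exfalso
        refine h (r / s) ?_ s hs s' hs' hss (by rw [e1]; exact hr) (by rw [e2]; exact hr')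
        intro hh
        apply hsr
        rw [div_eq_one_iff_eq hs0] at hh
        exact hh.symm
  · rw [not_nonempty_iff_eq_empty] at hR
    subst hR
    have hB : B = ∅ := subset_empty.1 hBS
    subst hB
    have hA : A = ∅ := subset_empty.1 hAB
    subst hA
    simp

open Classical in
theorem count_two (S B : Finset ℂ) (h0S : ∀ s ∈ S, s ≠ 0) (hBS : B ⊆ S)
    (h : ∀ d : ℂ, d ≠ 1 → ∀ s ∈ B, ∀ s' ∈ B, ∀ s'' ∈ B, s ≠ s' → s ≠ s'' → s' ≠ s'' → s * d ∈ B →
      s' * d ∈ B → s'' * d ∈ B → False) :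
    B.card * (B.card - 1) ≤ 2 * ((S / S).card - 1) := by
  by_cases hR : S.Nonempty
  · obtain ⟨x, hx⟩ := hR
    have h1' : (1 : ℂ) ∈ S / S := by
      rw [← div_self (h0S x hx)]
      exact Finset.div_mem_div hx hx
    rw [← card_erase_of_mem h1']
    have h1 : (B.sigma (fun r => B.erase r)).card = B.card * (B.card - 1) := by
      rw [card_sigma, Finset.sum_congr rfl (fun r hr => card_erase_of_mem hr), sum_const,
        smul_eq_mul]
    rw [← h1]
    apply card_le_mul_card_image_of_maps_to (f := fun p : (Σ _ : ℂ, ℂ) => p.1 / p.2)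
    · rintro ⟨r, s⟩ hp
      rw [mem_sigma, mem_erase] at hp
      obtain ⟨hr, hsr, hs⟩ := hp
      rw [mem_erase]
      refine ⟨?_, Finset.div_mem_div (hBS hr) (hBS hs)⟩
      intro hh
      apply hsr
      have hh' : r / s = 1 := hh
      rw [div_eq_one_iff_eq (h0S s (hBS hs))] at hh'
      exact hh'.symm
    · intro d hd
      by_contra hcon
      push Not at hcon
      obtain ⟨p, hp, q, hq, t, ht, hpq, hpt, hqt⟩ := Finset.two_lt_card.1 hcon
      rw [mem_filter, mem_sigma, mem_erase] at hp hq ht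
      obtain ⟨⟨hp1, hp2, hp3⟩, hp4⟩ := hp
      obtain ⟨⟨hq1, hq2, hq3⟩, hq4⟩ := hq
      obtain ⟨⟨ht1, ht2, ht3⟩, ht4⟩ := ht
      obtain ⟨p1, p2⟩ := p
      obtain ⟨q1, q2⟩ := q
      obtain ⟨t1, t2⟩ := t
      simp only at hp1 hp2 hp3 hp4 hq1 hq2 hq3 hq4 ht1 ht2 ht3 ht4
      have z1 := h0S p2 (hBS hp3)
      have z2 := h0S q2 (hBS hq3)
      have z3 := h0S t2 (hBS ht3)
      have e1 : p2 * d = p1 := by rw [← hp4]; field_simp
      have e2 : q2 * d = q1 := by rw [← hq4]; field_simp
      have e3 : t2 * d = t1 := by rw [← ht4]; field_simp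
      refine h d (mem_erase.1 hd).1 p2 hp3 q2 hq3 t2 ht3 ?_ ?_ ?_ (by rw [e1]; exact hp1)
        (by rw [e2]; exact hq1) (by rw [e3]; exact ht1)
      · rintro rfl
        apply hpq
        rw [← e1, ← e2]
      · rintro rfl
        apply hpt
        rw [← e1, ← e3]
      · rintro rfl
        apply hqt
        rw [← e2, ← e3]
  · rw [not_nonempty_iff_eq_empty] at hR
    subst hR
    have hB : B = ∅ := subset_empty.1 hBS
    subst hB
    simp

theorem alg_up {β x : ℂ} (h : IsAlgebraic ℚ x) : IsAlgebraic ℚ⟮β⟯ x := h.extendScalars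
  (algebraMap ℚ ℚ⟮β⟯).injective

open Classical in
theorem general {β : ℂ} (hβ : Transcendental ℚ β) (S : Finset ℂ)
    (hS : LinearIndependent ℚ (fun s : S => (s : ℂ))) (hK : ∀ s ∈ S, IsAlgebraic ℚ⟮β⟯ s) :
    (S.filter (fun s => IsAlgebraic ℚ⟮β⟯ (Complex.exp s))).card *
        ((S.filter (fun s => IsAlgebraic ℚ⟮β⟯ (Complex.exp s))).card - 1) ≤ 2 * ((S / S).card - 1) ∧
      (S.filter (fun s => IsAlgebraic ℚ (Complex.exp s))).card *
        ((S.filter (fun s => IsAlgebraic ℚ⟮β⟯ (Complex.exp s))).card - 1) ≤ (S / S).card - 1 := by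
  have h0S : ∀ s ∈ S, s ≠ 0 := fun s hs => ne_zero_of hS hs
  constructor
  · apply count_two S _ h0S (filter_subset _ _)
    intro d hd s hs s' hs' s'' hs'' h1 h2 h3 h4 h5 h6
    rw [mem_filter] at hs hs' hs'' h4 h5 h6
    refine no_three hβ hS hK ![s, s', s''] ?_ ?_ hd h4.1 ?_ ?_
    · intro i j hij
      fin_cases i <;> fin_cases j
      · rfl
      · exact absurd hij h1
      · exact absurd hij h2
      · exact absurd hij.symm h1
      · rfl
      · exact absurd hij h3
      · exact absurd hij.symm h2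
      · exact absurd hij.symm h3
      · rfl
    · intro i
      fin_cases i
      · exact hs.1
      · exact hs'.1
      · exact hs''.1
    · intro i
      fin_cases i
      · exact hs.2
      · exact hs'.2
      · exact hs''.2
    · intro i
      fin_cases i
      · exact h4.2
      · exact h5.2
      · exact h6.2
  · apply count_one S _ _ h0S _ (filter_subset _ _)
    · intro d hd s hs s' hs' h1 h2 h3
      rw [mem_filter] at hs hs' h2 h3
      exact no_two hβ hS hK hs.1 hs'.1 h1 hd h2.1 hs.2 hs'.2 h2.2 h3.2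
    · intro s hs
      rw [mem_filter] at hs ⊢
      exact ⟨hs.1, alg_up hs.2⟩

theorem exp_nat_inj : Function.Injective (fun n : ℕ => Complex.exp (n : ℂ)) := by
  intro n m h
  have h1 : Complex.exp (n : ℂ) = Complex.exp (m : ℂ) := h
  have h2 : ((Real.exp n : ℝ) : ℂ) = ((Real.exp m : ℝ) : ℂ) := by
    push_cast
    exact h1
  have h3 : Real.exp (n : ℝ) = Real.exp (m : ℝ) := by exact_mod_cast h2
  have h4 : (n : ℝ) = m := Real.exp_injective h3
  exact_mod_cast h4

open Classical in
/-- the towers `e ^ (e ^ n)` -/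
theorem towers (N : ℕ) :
    ((Icc 1 N).filter (fun n : ℕ => IsAlgebraic ℚ⟮Complex.exp 1⟯ (Complex.exp (Complex.exp n)))).card *
        (((Icc 1 N).filter
          (fun n : ℕ => IsAlgebraic ℚ⟮Complex.exp 1⟯ (Complex.exp (Complex.exp n)))).card + 1) ≤ 4 * N ∧
      ((Icc 1 N).filter (fun n : ℕ => IsAlgebraic ℚ (Complex.exp (Complex.exp n)))).card *
        ((Icc 1 N).filter
          (fun n : ℕ => IsAlgebraic ℚ⟮Complex.exp 1⟯ (Complex.exp (Complex.exp n)))).card ≤ 2 * N := by
  have he : Transcendental ℚ (Complex.exp 1) := Pool.Agent.H340R2.LW.transcendental_exp_one_complex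
  set v : ℕ → ℂ := fun n => Complex.exp (n : ℂ) with hv
  set S : Finset ℂ := (range (N + 1)).image v with hSdef
  have hli : LinearIndependent ℚ (fun i : Fin (N + 1) => v i) := by
    have h1 := li_pow he (fun i : Fin (N + 1) => ((i : ℕ) : ℚ)) (by
      intro i j hij
      have h2 : ((i : ℕ) : ℚ) = ((j : ℕ) : ℚ) := hij
      exact Fin.ext (by exact_mod_cast h2))
    convert h1 using 2 with i
    rw [hv]
    simp only
    push_cast
    rw [mul_one]
  have hS : LinearIndependent ℚ (fun s : S => (s : ℂ)) := by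
    have h1 := hli.linearIndepOn_id
    have h2 : ∀ s : S, (s : ℂ) ∈ Set.range (fun i : Fin (N + 1) => v i) := by
      intro s
      obtain ⟨n, hn, hns⟩ := mem_image.1 s.2
      rw [mem_range] at hn
      exact ⟨⟨n, hn⟩, hns⟩
    have h3 := LinearIndependent.comp h1 (fun s : S => (⟨(s : ℂ), h2 s⟩ :
      Set.range (fun i : Fin (N + 1) => v i))) (by
      intro s t hst
      apply Subtype.ext
      exact congrArg (fun x : Set.range (fun i : Fin (N + 1) => v i) => (x : ℂ)) hst)
    exact h3
  have hK : ∀ s ∈ S, IsAlgebraic ℚ⟮Complex.exp 1⟯ s := by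
    intro s hs
    obtain ⟨n, -, rfl⟩ := mem_image.1 hs
    have h1 := alg_pow 1 (n : ℚ)
    have h2 : ((n : ℚ) : ℂ) * 1 = (n : ℂ) := by push_cast; ring
    rw [h2] at h1
    exact h1
  have hQ : (S / S).card ≤ 2 * N + 1 := by
    have h1 : S / S ⊆ (Icc (-(N : ℤ)) N).image (fun k : ℤ => Complex.exp (k : ℂ)) := by
      intro x hx
      obtain ⟨s, hs, t, ht, rfl⟩ := Finset.mem_div.1 hx
      obtain ⟨n, hn, rfl⟩ := mem_image.1 hs
      obtain ⟨m, hm, rfl⟩ := mem_image.1 ht
      rw [mem_range] at hn hm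
      refine mem_image.2 ⟨(n : ℤ) - m, mem_Icc.2 ⟨by omega, by omega⟩, ?_⟩
      simp only [hv]
      push_cast
      rw [Complex.exp_sub]
    refine (card_le_card h1).trans (card_image_le.trans ?_)
    rw [Int.card_Icc]
    omega
  obtain ⟨h1, h2⟩ := general he S hS hK
  set B := S.filter (fun s => IsAlgebraic ℚ⟮Complex.exp 1⟯ (Complex.exp s)) with hB
  set A := S.filter (fun s => IsAlgebraic ℚ (Complex.exp s)) with hA
  set Bn := (Icc 1 N).filter
    (fun n : ℕ => IsAlgebraic ℚ⟮Complex.exp 1⟯ (Complex.exp (Complex.exp n))) with hBn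
  set An := (Icc 1 N).filter (fun n : ℕ => IsAlgebraic ℚ (Complex.exp (Complex.exp n))) with hAn
  have hb : Bn.card + 1 ≤ B.card := by
    have h3 : (insert 0 Bn).image v ⊆ B := by
      intro x hx
      obtain ⟨n, hn, rfl⟩ := mem_image.1 hx
      rw [hB, mem_filter]
      rw [mem_insert] at hn
      rcases hn with rfl | hn
      · refine ⟨mem_image_of_mem _ (mem_range.2 (by omega)), ?_⟩
        simp only [hv, Nat.cast_zero, Complex.exp_zero]
        have hmem : Complex.exp 1 ∈ ℚ⟮Complex.exp 1⟯ := IntermediateField.mem_adjoin_simple_self ℚ _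
        exact isAlgebraic_algebraMap (⟨_, hmem⟩ : ℚ⟮Complex.exp 1⟯)
      · rw [hBn, mem_filter, mem_Icc] at hn
        exact ⟨mem_image_of_mem _ (mem_range.2 (by omega)), hn.2⟩
    have h4 := card_le_card h3
    rw [card_image_of_injective _ exp_nat_inj, card_insert_of_notMem (by
      rw [hBn, mem_filter, mem_Icc]
      omega)] at h4
    exact h4
  have ha : An.card ≤ A.card := by
    have h3 : An.image v ⊆ A := by
      intro x hx
      obtain ⟨n, hn, rfl⟩ := mem_image.1 hx
      rw [hA, mem_filter]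
      rw [hAn, mem_filter, mem_Icc] at hn
      exact ⟨mem_image_of_mem _ (mem_range.2 (by omega)), hn.2⟩
    have h4 := card_le_card h3
    rwa [card_image_of_injective _ exp_nat_inj] at h4
  constructor
  · calc Bn.card * (Bn.card + 1) ≤ (B.card - 1) * B.card := Nat.mul_le_mul (by omega) hb
      _ = B.card * (B.card - 1) := mul_comm _ _
      _ ≤ 2 * ((S / S).card - 1) := h1
      _ ≤ 4 * N := by omega
  · calc An.card * Bn.card ≤ A.card * (B.card - 1) := Nat.mul_le_mul ha (by omega)
      _ ≤ (S / S).card - 1 := h2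
      _ ≤ 2 * N := by omega

/-- the numbers `e ^ r`, `r` in a finite set of rational numbers, are linearly independent -/
theorem li_image (S : Finset ℂ) (h : ∀ s ∈ S, ∃ r : ℚ, Complex.exp (r : ℂ) = s) :
    LinearIndependent ℚ (fun s : S => (s : ℂ)) := by
  have he : Transcendental ℚ (Complex.exp 1) := Pool.Agent.H340R2.LW.transcendental_exp_one_complex
  have h' : ∀ s : S, ∃ r : ℚ, Complex.exp (r : ℂ) = s := fun s => h s s.2
  choose r hr using h'
  have h1 := li_pow he (fun i : Fin S.card => r (S.equivFin.symm i)) (by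
    intro i j hij
    have h2 : r (S.equivFin.symm i) = r (S.equivFin.symm j) := hij
    have h3 : (S.equivFin.symm i : ℂ) = (S.equivFin.symm j : ℂ) := by
      rw [← hr (S.equivFin.symm i), ← hr (S.equivFin.symm j), h2]
    exact S.equivFin.symm.injective (Subtype.ext h3))
  have h4 := h1.comp S.equivFin S.equivFin.injective
  convert h4 using 2 with s
  simp only [Function.comp_apply, Equiv.symm_apply_apply, mul_one]
  exact (hr s).symm

theorem exp_rat_inj : Function.Injective (fun r : ℚ => Complex.exp (r : ℂ)) := by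
  intro n m h
  have h1 : Complex.exp (n : ℂ) = Complex.exp (m : ℂ) := h
  have h2 : ((Real.exp n : ℝ) : ℂ) = ((Real.exp m : ℝ) : ℂ) := by
    push_cast
    exact h1
  have h3 : Real.exp (n : ℝ) = Real.exp (m : ℝ) := by exact_mod_cast h2
  have h4 : (n : ℝ) = m := Real.exp_injective h3
  exact_mod_cast h4

open Classical in
/-- the numbers `e ^ (e ^ r)`, `r ∈ R` -/
theorem rationals (R : Finset ℚ) :
    (R.filter (fun r : ℚ => IsAlgebraic ℚ⟮Complex.exp 1⟯ (Complex.exp (Complex.exp r)))).card *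
        ((R.filter
          (fun r : ℚ => IsAlgebraic ℚ⟮Complex.exp 1⟯ (Complex.exp (Complex.exp r)))).card - 1) ≤
          2 * ((R - R).card - 1) ∧
      (R.filter (fun r : ℚ => IsAlgebraic ℚ (Complex.exp (Complex.exp r)))).card *
        ((R.filter
          (fun r : ℚ => IsAlgebraic ℚ⟮Complex.exp 1⟯ (Complex.exp (Complex.exp r)))).card - 1) ≤
          (R - R).card - 1 := by
  have he : Transcendental ℚ (Complex.exp 1) := Pool.Agent.H340R2.LW.transcendental_exp_one_complex
  set v : ℚ → ℂ := fun r => Complex.exp (r : ℂ) with hv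
  have hvi : Function.Injective v := exp_rat_inj
  have hS : LinearIndependent ℚ (fun s : (R.image v : Finset ℂ) => (s : ℂ)) := by
    apply li_image
    intro s hs
    obtain ⟨r, -, hr⟩ := mem_image.1 hs
    exact ⟨r, hr⟩
  have hK : ∀ s ∈ R.image v, IsAlgebraic ℚ⟮Complex.exp 1⟯ s := by
    intro s hs
    obtain ⟨r, -, rfl⟩ := mem_image.1 hs
    have h1 := alg_pow 1 r
    rw [mul_one] at h1
    exact h1
  have hQ : (R.image v / R.image v).card ≤ (R - R).card := by
    have h1 : R.image v / R.image v ⊆ (R - R).image v := by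
      intro x hx
      obtain ⟨s, hs, t, ht, rfl⟩ := Finset.mem_div.1 hx
      obtain ⟨n, hn, rfl⟩ := mem_image.1 hs
      obtain ⟨m, hm, rfl⟩ := mem_image.1 ht
      refine mem_image.2 ⟨n - m, Finset.sub_mem_sub hn hm, ?_⟩
      simp only [hv]
      push_cast
      rw [Complex.exp_sub]
    exact (card_le_card h1).trans card_image_le
  obtain ⟨h1, h2⟩ := general he (R.image v) hS hK
  have hb : (R.image v).filter (fun s => IsAlgebraic ℚ⟮Complex.exp 1⟯ (Complex.exp s)) =
      (R.filter (fun r : ℚ => IsAlgebraic ℚ⟮Complex.exp 1⟯ (Complex.exp (Complex.exp r)))).image v := by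
    rw [Finset.filter_image]
  have ha : (R.image v).filter (fun s => IsAlgebraic ℚ (Complex.exp s)) =
      (R.filter (fun r : ℚ => IsAlgebraic ℚ (Complex.exp (Complex.exp r)))).image v := by
    rw [Finset.filter_image]
  rw [hb, card_image_of_injective _ hvi] at h1 h2
  rw [ha, card_image_of_injective _ hvi] at h2
  exact ⟨h1.trans (by omega), h2.trans (by omega)⟩

end Pool.Agent.J4H70.TW
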