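import Pool.Agent.J4H70.TW.Main

/-!
# Windows (Erdős and Turán) for sets with few representations of every quotient

Library for `Pool.Agent.Results.MP_58ae59_nt.AlmostAllTowers`.
-/

set_option autoImplicit false

namespace Pool.Agent.J4H70.TW

open Finset

open scoped Pointwise IntermediateField

open Classical in
/-- the sum of the windows -/
theorem win_sum (S K B : Finset ℂ) (h0S : ∀ s ∈ S, s ≠ 0) (h0K : ∀ k ∈ K, k ≠ 0) (hBS : B ⊆ S) :
    ∑ t ∈ S / K, (B.filter (fun b => b / t ∈ K)).card = K.card * B.card := by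
  have h1 : ∑ t ∈ S / K, (B.filter (fun b => b / t ∈ K)).card =
      ∑ b ∈ B, ((S / K).filter (fun t => b / t ∈ K)).card := by
    simp only [card_filter]
    exact sum_comm
  rw [h1]
  have h2 : ∀ b ∈ B, ((S / K).filter (fun t => b / t ∈ K)).card = K.card := by
    intro b hb
    have hb0 := h0S b (hBS hb)
    have h3 : (S / K).filter (fun t => b / t ∈ K) = K.image (fun k => b / k) := by
      ext t
      rw [mem_filter, mem_image]
      constructor
      · rintro ⟨ht, hk⟩
        obtain ⟨s, hs, k, hk', rfl⟩ := Finset.mem_div.1 ht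
        refine ⟨_, hk, ?_⟩
        have hs0 := h0S s hs
        have hk0 := h0K k hk'
        field_simp
      · rintro ⟨k, hk, rfl⟩
        have hk0 := h0K k hk
        refine ⟨Finset.div_mem_div (hBS hb) hk, ?_⟩
        have : b / (b / k) = k := by field_simp
        rw [this]
        exact hk
    rw [h3, card_image_of_injOn]
    intro k hk k' hk' h
    have hk0 := h0K k hk
    have hk0' := h0K k' hk'
    have h4 : b / k = b / k' := h
    rw [div_eq_div_iff hk0 hk0'] at h4
    exact (mul_left_cancel₀ hb0 h4).symm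
  rw [sum_congr rfl h2, sum_const, smul_eq_mul, mul_comm]

open Classical in
/-- the sum of the products of the windows -/
theorem win_prod (S K A B : Finset ℂ) (h0S : ∀ s ∈ S, s ≠ 0) (h0K : ∀ k ∈ K, k ≠ 0) (hAS : A ⊆ S)
    (r : ℕ) (hr : ∀ d : ℂ, d ≠ 1 → ((A ×ˢ B).filter (fun p => p.1 = d * p.2)).card ≤ r) :
    ∑ t ∈ S / K, (A.filter (fun b => b / t ∈ K)).card * (B.filter (fun b => b / t ∈ K)).card ≤
      K.card * (A.card + r * (K.card - 1)) := by
  have h1 : ∀ t ∈ S / K, (A.filter (fun b => b / t ∈ K)).card * (B.filter (fun b => b / t ∈ K)).card =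
      ((A ×ˢ B).filter (fun p => p.1 / t ∈ K ∧ p.2 / t ∈ K)).card := by
    intro t ht
    rw [← card_product]
    congr 1
    ext p
    simp only [mem_product, mem_filter]
    tauto
  rw [sum_congr rfl h1, ← card_sigma]
  have h2 : ((S / K).sigma (fun t => (A ×ˢ B).filter (fun p => p.1 / t ∈ K ∧ p.2 / t ∈ K))).card ≤
      ((K ×ˢ K).sigma (fun k => (A ×ˢ B).filter (fun p => p.1 * k.2 = p.2 * k.1))).card := by
    refine card_le_card_of_injOn (fun q => ⟨(q.2.1 / q.1, q.2.2 / q.1), q.2⟩) ?_ ?_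
    · rintro ⟨t, a, b⟩ hq
      rw [mem_coe, mem_sigma, mem_filter, mem_product] at hq
      obtain ⟨ht, ⟨ha, hb⟩, h3, h4⟩ := hq
      rw [mem_coe, mem_sigma, mem_filter, mem_product, mem_product]
      refine ⟨⟨h3, h4⟩, ⟨ha, hb⟩, ?_⟩
      show a * (b / t) = b * (a / t)
      ring
    · rintro ⟨t, a, b⟩ hq ⟨t', a', b'⟩ hq' he
      rw [mem_coe, mem_sigma, mem_filter, mem_product] at hq hq'
      obtain ⟨ht, ⟨ha, hb⟩, h3, h4⟩ := hq
      obtain ⟨ht', ⟨ha', hb'⟩, h3', h4'⟩ := hq'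
      simp only [Sigma.mk.injEq, Prod.mk.injEq, heq_eq_eq] at he
      obtain ⟨⟨e1, -⟩, e3, e4⟩ := he
      simp only at ha hb ht ht' ha' hb'
      subst e3 e4
      have ha0 := h0S a (hAS ha)
      have ht0 : t ≠ 0 := by
        rintro rfl
        simp only [div_zero] at h3
        exact h0K 0 h3 rfl
      have ht0' : t' ≠ 0 := by
        rintro rfl
        simp only [div_zero] at h3'
        exact h0K 0 h3' rfl
      rw [div_eq_div_iff ht0 ht0'] at e1
      have := mul_left_cancel₀ ha0 e1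
      subst this
      rfl
  refine h2.trans ?_
  rw [card_sigma, sum_product]
  have h3 : ∀ k ∈ K, ∑ k' ∈ K, ((A ×ˢ B).filter (fun p => p.1 * (k, k').2 = p.2 * (k, k').1)).card ≤
      A.card + r * (K.card - 1) := by
    intro k hk
    rw [← add_sum_erase K _ hk]
    have hk0 := h0K k hk
    apply add_le_add
    · refine card_le_card_of_injOn (fun p => p.1) ?_ ?_
      · rintro ⟨a, b⟩ hp
        rw [mem_coe, mem_filter, mem_product] at hp
        exact hp.1.1
      · rintro ⟨a, b⟩ hp ⟨a', b'⟩ hp' he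
        rw [mem_coe, mem_filter] at hp hp'
        have e1 : a = a' := he
        have e2 : a = b := mul_right_cancel₀ hk0 hp.2
        have e3 : a' = b' := mul_right_cancel₀ hk0 hp'.2
        rw [Prod.mk.injEq]
        exact ⟨e1, by rw [← e2, ← e3, e1]⟩
    · rw [mul_comm r, ← card_erase_of_mem hk, ← smul_eq_mul, ← sum_const]
      apply sum_le_sum
      intro k' hk'
      have hk0' := h0K k' (mem_of_mem_erase hk')
      refine le_trans (card_le_card ?_) (hr (k / k') ?_)
      · rintro ⟨a, b⟩ hp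
        rw [mem_filter] at hp ⊢
        refine ⟨hp.1, ?_⟩
        have h4 : a * k' = b * k := hp.2
        show a = k / k' * b
        rw [div_mul_eq_mul_div, eq_div_iff hk0', h4, mul_comm]
      · intro h
        rw [div_eq_one_iff_eq hk0'] at h
        exact (mem_erase.1 hk').1 h.symm
  refine (sum_le_sum h3).trans ?_
  rw [sum_const, smul_eq_mul]

open Classical in
theorem windows (S K A B : Finset ℂ) (h0S : ∀ s ∈ S, s ≠ 0) (h0K : ∀ k ∈ K, k ≠ 0) (hAB : A ⊆ B)
    (hBS : B ⊆ S)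
    (h1 : ∀ d : ℂ, d ≠ 1 → ((A ×ˢ B).filter (fun p => p.1 = d * p.2)).card ≤ 1)
    (h2 : ∀ d : ℂ, d ≠ 1 → ((B ×ˢ B).filter (fun p => p.1 = d * p.2)).card ≤ 2) (x y : ℝ)
    (hx : 0 ≤ x) (hy : 0 ≤ y) :
    (K.card : ℝ) * (x * A.card + y * B.card) ^ 2 ≤
      (S / K).card * ((x ^ 2 + 2 * x * y) * (A.card + ((K.card : ℝ) - 1)) +
        y ^ 2 * (B.card + 2 * ((K.card : ℝ) - 1))) := by
  by_cases hKe : K = ∅
  · subst hKe
    simp
  have hK1 : 1 ≤ K.card := card_pos.2 (nonempty_iff_ne_empty.2 hKe)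
  have hKr : (0 : ℝ) < K.card := by exact_mod_cast hK1
  have hcast : (((K.card - 1 : ℕ) : ℝ)) = (K.card : ℝ) - 1 := by
    rw [Nat.cast_sub hK1, Nat.cast_one]
  set f : ℂ → ℝ := fun t => (A.filter (fun b => b / t ∈ K)).card with hf
  set g : ℂ → ℝ := fun t => (B.filter (fun b => b / t ∈ K)).card with hg
  have s1 : ∑ t ∈ S / K, f t = K.card * A.card := by
    have := win_sum S K A h0S h0K (hAB.trans hBS)
    simp only [hf]
    exact_mod_cast this
  have s2 : ∑ t ∈ S / K, g t = K.card * B.card := by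
    have := win_sum S K B h0S h0K hBS
    simp only [hg]
    exact_mod_cast this
  have hAA : ∀ d : ℂ, d ≠ 1 → ((A ×ˢ A).filter (fun p => p.1 = d * p.2)).card ≤ 1 := fun d hd =>
    (card_le_card (filter_subset_filter _ (product_subset_product_right hAB))).trans (h1 d hd)
  have p1 : ∑ t ∈ S / K, f t * f t ≤ K.card * (A.card + ((K.card : ℝ) - 1)) := by
    have := win_prod S K A A h0S h0K (hAB.trans hBS) 1 hAA
    rw [one_mul] at this
    rw [← hcast]
    simp only [hf]
    exact_mod_cast this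
  have p2 : ∑ t ∈ S / K, f t * g t ≤ K.card * (A.card + ((K.card : ℝ) - 1)) := by
    have := win_prod S K A B h0S h0K (hAB.trans hBS) 1 h1
    rw [one_mul] at this
    rw [← hcast]
    simp only [hf, hg]
    exact_mod_cast this
  have p3 : ∑ t ∈ S / K, g t * g t ≤ K.card * (B.card + 2 * ((K.card : ℝ) - 1)) := by
    have := win_prod S K B B h0S h0K hBS 2 h2
    rw [← hcast]
    simp only [hg]
    exact_mod_cast this
  have hcs := sq_sum_le_card_mul_sum_sq (s := S / K) (f := fun t => x * f t + y * g t)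
  have e1 : ∑ t ∈ S / K, (x * f t + y * g t) = K.card * (x * A.card + y * B.card) := by
    rw [sum_add_distrib, ← mul_sum, ← mul_sum, s1, s2]
    ring
  have e2 : ∑ t ∈ S / K, (x * f t + y * g t) ^ 2 = x ^ 2 * ∑ t ∈ S / K, f t * f t +
      2 * x * y * ∑ t ∈ S / K, f t * g t + y ^ 2 * ∑ t ∈ S / K, g t * g t := by
    rw [mul_sum, mul_sum, mul_sum, ← sum_add_distrib, ← sum_add_distrib]
    apply sum_congr rfl
    intro t ht
    ring
  have e3 : ∑ t ∈ S / K, (x * f t + y * g t) ^ 2 ≤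
      K.card * ((x ^ 2 + 2 * x * y) * (A.card + ((K.card : ℝ) - 1)) +
        y ^ 2 * (B.card + 2 * ((K.card : ℝ) - 1))) := by
    rw [e2]
    have i1 := mul_le_mul_of_nonneg_left p1 (sq_nonneg x)
    have i2 := mul_le_mul_of_nonneg_left p2 (mul_nonneg (mul_nonneg zero_le_two hx) hy)
    have i3 := mul_le_mul_of_nonneg_left p3 (sq_nonneg y)
    calc _ ≤ _ := add_le_add (add_le_add i1 i2) i3
      _ = _ := by ring
  rw [e1] at hcs
  have h4 := hcs.trans (mul_le_mul_of_nonneg_left e3 (Nat.cast_nonneg (S / K).card))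
  have h5 : (K.card : ℝ) * ((K.card : ℝ) * (x * A.card + y * B.card) ^ 2) ≤
      (K.card : ℝ) * ((S / K).card * ((x ^ 2 + 2 * x * y) * (A.card + ((K.card : ℝ) - 1)) +
        y ^ 2 * (B.card + 2 * ((K.card : ℝ) - 1)))) := by
    calc _ = ((K.card : ℝ) * (x * A.card + y * B.card)) ^ 2 := by ring
      _ ≤ _ := h4
      _ = _ := by ring
  exact le_of_mul_le_mul_left h5 hKr

open Classical in
theorem general_win {β : ℂ} (hβ : Transcendental ℚ β) (S : Finset ℂ)
    (hS : LinearIndependent ℚ (fun s : S => (s : ℂ))) (hSK : ∀ s ∈ S, IsAlgebraic ℚ⟮β⟯ s)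
    (K : Finset ℂ) (h0K : ∀ k ∈ K, k ≠ 0) (x y : ℝ) (hx : 0 ≤ x) (hy : 0 ≤ y) :
    (K.card : ℝ) * (x * (S.filter (fun s => IsAlgebraic ℚ (Complex.exp s))).card +
        y * (S.filter (fun s => IsAlgebraic ℚ⟮β⟯ (Complex.exp s))).card) ^ 2 ≤
      (S / K).card * ((x ^ 2 + 2 * x * y) *
          ((S.filter (fun s => IsAlgebraic ℚ (Complex.exp s))).card + ((K.card : ℝ) - 1)) +
        y ^ 2 * ((S.filter (fun s => IsAlgebraic ℚ⟮β⟯ (Complex.exp s))).card +
          2 * ((K.card : ℝ) - 1))) := by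
  have h0S : ∀ s ∈ S, s ≠ 0 := fun s hs => ne_zero_of hS hs
  apply windows S K _ _ h0S h0K _ (filter_subset _ _) _ _ x y hx hy
  · intro s hs
    rw [mem_filter] at hs ⊢
    exact ⟨hs.1, alg_up hs.2⟩
  · intro d hd
    rw [Finset.card_le_one]
    rintro ⟨r, s⟩ hp ⟨r', s'⟩ hp'
    rw [mem_filter, mem_product, mem_filter, mem_filter] at hp hp'
    obtain ⟨⟨⟨q1, q2⟩, q3, q4⟩, q5⟩ := hp
    obtain ⟨⟨⟨q1', q2'⟩, q3', q4'⟩, q5'⟩ := hp'
    simp only at q1 q2 q3 q4 q5 q1' q2' q3' q4' q5'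
    by_cases hss : s = s'
    · subst hss
      rw [Prod.mk.injEq]
      exact ⟨by rw [q5, q5'], rfl⟩
    · exfalso
      have e1 : s * d = r := by rw [q5]; ring
      have e2 : s' * d = r' := by rw [q5']; ring
      exact no_two hβ hS hSK q3 q3' hss hd (by rw [e1]; exact q1) q4 q4' (by rw [e1]; exact q2)
        (by rw [e2]; exact q2')
  · intro d hd
    by_contra hcon
    push Not at hcon
    obtain ⟨p, hp, q, hq, t, ht, hpq, hpt, hqt⟩ := Finset.two_lt_card.1 hcon
    obtain ⟨p1, p2⟩ := p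
    obtain ⟨q1, q2⟩ := q
    obtain ⟨t1, t2⟩ := t
    rw [mem_filter, mem_product, mem_filter, mem_filter] at hp hq ht
    obtain ⟨⟨⟨a1, a2⟩, a3, a4⟩, a5⟩ := hp
    obtain ⟨⟨⟨b1, b2⟩, b3, b4⟩, b5⟩ := hq
    obtain ⟨⟨⟨c1, c2⟩, c3, c4⟩, c5⟩ := ht
    simp only at a1 a2 a3 a4 a5 b1 b2 b3 b4 b5 c1 c2 c3 c4 c5
    have e1 : p2 * d = p1 := by rw [a5]; ring
    have e2 : q2 * d = q1 := by rw [b5]; ring
    have e3 : t2 * d = t1 := by rw [c5]; ring
    have n1 : p2 ≠ q2 := by
      rintro rfl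
      exact hpq (by rw [← e1, ← e2])
    have n2 : p2 ≠ t2 := by
      rintro rfl
      exact hpt (by rw [← e1, ← e3])
    have n3 : q2 ≠ t2 := by
      rintro rfl
      exact hqt (by rw [← e2, ← e3])
    refine no_three hβ hS hSK ![p2, q2, t2] ?_ ?_ hd (by
      show p2 * d ∈ S
      rw [e1]
      exact a1) ?_ ?_
    · intro i j hij
      fin_cases i <;> fin_cases j
      · rfl
      · exact absurd hij n1
      · exact absurd hij n2
      · exact absurd hij.symm n1
      · rfl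
      · exact absurd hij n3
      · exact absurd hij.symm n2
      · exact absurd hij.symm n3
      · rfl
    · intro i
      fin_cases i
      · exact a3
      · exact b3
      · exact c3
    · intro i
      fin_cases i
      · exact a4
      · exact b4
      · exact c4
    · intro i
      fin_cases i
      · show IsAlgebraic ℚ⟮β⟯ (Complex.exp (p2 * d))
        rw [e1]; exact a2
      · show IsAlgebraic ℚ⟮β⟯ (Complex.exp (q2 * d))
        rw [e2]; exact b2
      · show IsAlgebraic ℚ⟮β⟯ (Complex.exp (t2 * d))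
        rw [e3]; exact c2

open Classical in
/-- the numbers `e ^ (e ^ r)`, `r ∈ R` -/
theorem rationals_win (R K : Finset ℚ) (x y : ℝ) (hx : 0 ≤ x) (hy : 0 ≤ y) :
    (K.card : ℝ) * (x * (R.filter (fun r : ℚ => IsAlgebraic ℚ (Complex.exp (Complex.exp r)))).card +
        y * (R.filter
          (fun r : ℚ => IsAlgebraic ℚ⟮Complex.exp 1⟯ (Complex.exp (Complex.exp r)))).card) ^ 2 ≤
      (R - K).card * ((x ^ 2 + 2 * x * y) *
          ((R.filter (fun r : ℚ => IsAlgebraic ℚ (Complex.exp (Complex.exp r)))).card +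
            ((K.card : ℝ) - 1)) +
        y ^ 2 * ((R.filter
          (fun r : ℚ => IsAlgebraic ℚ⟮Complex.exp 1⟯ (Complex.exp (Complex.exp r)))).card +
          2 * ((K.card : ℝ) - 1))) := by
  by_cases hKe : K = ∅
  · subst hKe
    simp
  have hK1 : 1 ≤ K.card := card_pos.2 (nonempty_iff_ne_empty.2 hKe)
  have hKr : (0 : ℝ) ≤ (K.card : ℝ) - 1 := by
    have : (1 : ℝ) ≤ K.card := by exact_mod_cast hK1
    linarith
  have he : Transcendental ℚ (Complex.exp 1) := Pool.Agent.H340R2.LW.transcendental_exp_one_complex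
  set v : ℚ → ℂ := fun r => Complex.exp (r : ℂ) with hv
  have hvi : Function.Injective v := exp_rat_inj
  have hS : LinearIndependent ℚ (fun s : (R.image v : Finset ℂ) => (s : ℂ)) := by
    apply li_image
    intro s hs
    obtain ⟨r, -, hr⟩ := mem_image.1 hs
    exact ⟨r, hr⟩
  have hK : ∀ s ∈ R.image v, IsAlgebraic ℚ⟮Complex.exp 1⟯ s := by
    intro s hs
    obtain ⟨r, -, rfl⟩ := mem_image.1 hs
    have h1 := alg_pow 1 r
    rw [mul_one] at h1
    exact h1
  have hQ : (R.image v / K.image v).card ≤ (R - K).card := by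
    have h1 : R.image v / K.image v ⊆ (R - K).image v := by
      intro x hx
      obtain ⟨s, hs, t, ht, rfl⟩ := Finset.mem_div.1 hx
      obtain ⟨n, hn, rfl⟩ := mem_image.1 hs
      obtain ⟨m, hm, rfl⟩ := mem_image.1 ht
      refine mem_image.2 ⟨n - m, Finset.sub_mem_sub hn hm, ?_⟩
      simp only [hv]
      push_cast
      rw [Complex.exp_sub]
    exact (card_le_card h1).trans card_image_le
  have h1 := general_win he (R.image v) hS hK (K.image v) (by
    intro k hk
    obtain ⟨r, -, rfl⟩ := mem_image.1 hk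
    exact Complex.exp_ne_zero _) x y hx hy
  have hb : (R.image v).filter (fun s => IsAlgebraic ℚ⟮Complex.exp 1⟯ (Complex.exp s)) =
      (R.filter (fun r : ℚ => IsAlgebraic ℚ⟮Complex.exp 1⟯ (Complex.exp (Complex.exp r)))).image v := by
    rw [Finset.filter_image]
  have ha : (R.image v).filter (fun s => IsAlgebraic ℚ (Complex.exp s)) =
      (R.filter (fun r : ℚ => IsAlgebraic ℚ (Complex.exp (Complex.exp r)))).image v := by
    rw [Finset.filter_image]
  rw [hb, ha, card_image_of_injective _ hvi, card_image_of_injective _ hvi,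
    card_image_of_injective _ hvi] at h1
  refine h1.trans (mul_le_mul_of_nonneg_right (by exact_mod_cast hQ) ?_)
  positivity

open Classical in
/-- the towers `e ^ (e ^ n)`, finite form -/
theorem towers_fin (N u : ℕ) (hu : 1 ≤ u) (x y : ℝ) (hx : 0 ≤ x) (hy : 0 ≤ y) :
    (u : ℝ) * (x * ((Icc 1 N).filter
          (fun n : ℕ => IsAlgebraic ℚ (Complex.exp (Complex.exp n)))).card +
        y * ((Icc 1 N).filter
          (fun n : ℕ => IsAlgebraic ℚ⟮Complex.exp 1⟯ (Complex.exp (Complex.exp n)))).card) ^ 2 ≤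
      ((N : ℝ) + (u - 1)) * ((x ^ 2 + 2 * x * y) *
          (((Icc 1 N).filter
            (fun n : ℕ => IsAlgebraic ℚ (Complex.exp (Complex.exp n)))).card + ((u : ℝ) - 1)) +
        y ^ 2 * (((Icc 1 N).filter
          (fun n : ℕ => IsAlgebraic ℚ⟮Complex.exp 1⟯ (Complex.exp (Complex.exp n)))).card +
          2 * ((u : ℝ) - 1))) := by
  have hci : Function.Injective (fun n : ℕ => (n : ℚ)) := Nat.cast_injective
  have h1 := rationals_win ((Icc 1 N).image (fun n : ℕ => (n : ℚ)))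
    ((range u).image (fun n : ℕ => (n : ℚ))) x y hx hy
  have hc : ∀ n : ℕ, (((n : ℚ)) : ℂ) = (n : ℂ) := fun n => by push_cast; rfl
  rw [Finset.filter_image, Finset.filter_image, card_image_of_injective _ hci,
    card_image_of_injective _ hci, card_image_of_injective _ hci, card_range] at h1
  simp only [hc] at h1
  have hQ : ((Icc 1 N).image (fun n : ℕ => (n : ℚ)) - (range u).image (fun n : ℕ => (n : ℚ))).card ≤
      N + (u - 1) := by
    have h2 : (Icc 1 N).image (fun n : ℕ => (n : ℚ)) - (range u).image (fun n : ℕ => (n : ℚ)) ⊆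
        (Icc (2 - (u : ℤ)) N).image (fun k : ℤ => (k : ℚ)) := by
      intro q hq
      obtain ⟨s, hs, t, ht, rfl⟩ := Finset.mem_sub.1 hq
      obtain ⟨n, hn, rfl⟩ := mem_image.1 hs
      obtain ⟨m, hm, rfl⟩ := mem_image.1 ht
      rw [mem_Icc] at hn
      rw [mem_range] at hm
      refine mem_image.2 ⟨(n : ℤ) - m, mem_Icc.2 ⟨by omega, by omega⟩, ?_⟩
      push_cast
      ring
    refine (card_le_card h2).trans (card_image_le.trans ?_)
    rw [Int.card_Icc]
    omega
  have hur : (0 : ℝ) ≤ (u : ℝ) - 1 := by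
    have : (1 : ℝ) ≤ u := by exact_mod_cast hu
    linarith
  have hQ' : ((((Icc 1 N).image (fun n : ℕ => (n : ℚ)) -
      (range u).image (fun n : ℕ => (n : ℚ))).card : ℕ) : ℝ) ≤ (N : ℝ) + (u - 1) := by
    have h3 : ((((Icc 1 N).image (fun n : ℕ => (n : ℚ)) -
      (range u).image (fun n : ℕ => (n : ℚ))).card : ℕ) : ℝ) ≤ ((N + (u - 1) : ℕ) : ℝ) := by
      exact_mod_cast hQ
    rw [Nat.cast_add, Nat.cast_sub hu, Nat.cast_one] at h3
    exact h3
  exact h1.trans (mul_le_mul_of_nonneg_right hQ' (by positivity))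

/-- the choice of the length of the windows -/
theorem choose_u (N : ℕ) (a b x y : ℝ) (hx : 0 ≤ x) (hy : 0 ≤ y) (ha : 0 ≤ a) (hab : a ≤ b)
    (hb : b ≤ 2 * √N)
    (h : ∀ u : ℕ, 1 ≤ u → (u : ℝ) * (x * a + y * b) ^ 2 ≤ ((N : ℝ) + (u - 1)) *
      ((x ^ 2 + 2 * x * y) * (a + ((u : ℝ) - 1)) + y ^ 2 * (b + 2 * ((u : ℝ) - 1)))) :
    (x * a + y * b) ^ 2 ≤ (x ^ 2 + 2 * x * y + 2 * y ^ 2) * N +
      8 * (x + y) ^ 2 * (N : ℝ) ^ (3 / 4 : ℝ) := by
  rcases Nat.eq_zero_or_pos N with hN | hN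
  · subst hN
    have hb0 : b = 0 := by
      rw [Nat.cast_zero, Real.sqrt_zero, mul_zero] at hb
      exact le_antisymm hb (ha.trans hab)
    have ha0 : a = 0 := le_antisymm (hab.trans hb0.le) ha
    rw [hb0, ha0]
    have : (((0 : ℕ) : ℝ)) ^ (3 / 4 : ℝ) = 0 := by
      rw [Nat.cast_zero]
      exact Real.zero_rpow (by norm_num)
    rw [this]
    simp
  have hNr : (1 : ℝ) ≤ N := by exact_mod_cast hN
  set M : ℝ := (N : ℝ) ^ (3 / 4 : ℝ) with hM
  have hM1 : 1 ≤ M := Real.one_le_rpow hNr (by norm_num)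
  set u : ℕ := ⌈M⌉₊ with hu
  have hu1 : M ≤ u := Nat.le_ceil M
  have hu2 : (u : ℝ) ≤ 2 * M := by
    have := Nat.ceil_lt_add_one (a := M) (by linarith)
    linarith
  have hu3 : 1 ≤ u := by
    have : (1 : ℝ) ≤ u := hM1.trans hu1
    exact_mod_cast this
  have hs : √N ≤ M := by
    rw [hM, Real.sqrt_eq_rpow]
    exact Real.rpow_le_rpow_of_exponent_le hNr (by norm_num)
  have hs2 : (N : ℝ) * √N = M ^ 2 := by
    rw [hM, Real.sqrt_eq_rpow, ← Real.rpow_natCast, ← Real.rpow_mul (by linarith)]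
    nth_rewrite 1 [← Real.rpow_one (N : ℝ)]
    rw [← Real.rpow_add (by linarith)]
    norm_num
  have h1 := h u hu3
  set W : ℝ := (x + y) ^ 2 with hW
  set Q : ℝ := x ^ 2 + 2 * x * y + 2 * y ^ 2 with hQ
  have hW0 : 0 ≤ W := sq_nonneg _
  have hQW : Q ≤ 2 * W := by
    rw [hQ, hW]
    nlinarith [mul_nonneg hx hy, sq_nonneg x, sq_nonneg y]
  have hQ0 : 0 ≤ Q := by positivity
  have hur : (0 : ℝ) < u := by linarith
  have hs0 : 0 ≤ √(N : ℝ) := Real.sqrt_nonneg _
  -- the bracket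
  have hF : (x ^ 2 + 2 * x * y) * (a + ((u : ℝ) - 1)) + y ^ 2 * (b + 2 * ((u : ℝ) - 1)) ≤
      u * Q + 2 * √N * W := by
    have i1 : (x ^ 2 + 2 * x * y) * (a + ((u : ℝ) - 1)) ≤ (x ^ 2 + 2 * x * y) * (2 * √N + u) := by
      apply mul_le_mul_of_nonneg_left _ (by positivity)
      linarith
    have i2 : y ^ 2 * (b + 2 * ((u : ℝ) - 1)) ≤ y ^ 2 * (2 * √N + 2 * u) := by
      apply mul_le_mul_of_nonneg_left _ (by positivity)
      linarith
    calc _ ≤ (x ^ 2 + 2 * x * y) * (2 * √N + u) + y ^ 2 * (2 * √N + 2 * u) := add_le_add i1 i2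
      _ = u * Q + 2 * √N * W := by rw [hQ, hW]; ring
  have h2 : (u : ℝ) * (x * a + y * b) ^ 2 ≤ ((N : ℝ) + u) * (u * Q + 2 * √N * W) := by
    refine h1.trans ?_
    apply mul_le_mul (by linarith) hF _ (by linarith)
    have : (0 : ℝ) ≤ (u : ℝ) - 1 := by linarith
    have hb0 : 0 ≤ b := ha.trans hab
    positivity
  have h3 : ((N : ℝ) + u) * (u * Q + 2 * √N * W) ≤ u * (Q * N + 8 * W * M) := by
    have j1 : 2 * (N * √N) * W ≤ 2 * (u * M) * W := by
      rw [hs2]
      apply mul_le_mul_of_nonneg_right _ hW0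
      nlinarith
    have j2 : (u : ℝ) * (u * Q) ≤ u * (2 * M * (2 * W)) := by
      apply mul_le_mul_of_nonneg_left _ hur.le
      exact mul_le_mul hu2 hQW hQ0 (by linarith)
    have j3 : (u : ℝ) * (2 * √N * W) ≤ u * (2 * M * W) := by
      apply mul_le_mul_of_nonneg_left _ hur.le
      apply mul_le_mul_of_nonneg_right _ hW0
      linarith
    calc ((N : ℝ) + u) * (u * Q + 2 * √N * W) =
        u * (Q * N) + 2 * (N * √N) * W + u * (u * Q) + u * (2 * √N * W) := by ring
      _ ≤ u * (Q * N) + 2 * (u * M) * W + u * (2 * M * (2 * W)) + u * (2 * M * W) := by linarith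
      _ = u * (Q * N + 8 * W * M) := by ring
  exact le_of_mul_le_mul_left (h2.trans h3) hur

end Pool.Agent.J4H70.TW
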